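import Pool.Agent.Y522.Stm

/-!
# The modified parabolic Moebius map (project SH)
-/

set_option autoImplicit false

open Set Filter Topology Metric Function
open scoped Manifold ContDiff

noncomputable section

namespace Pool.Agent.Y900.SH

open Pool.Agent.Y522

variable {m : ℕ}

theorem inner_e0 (z : E (m + 1)) : inner ℝ z (e0 : E (m + 1)) = z 0 := by
  rw [PiLp.inner_apply, Fin.sum_univ_succ]
  simp [e0]

theorem e0_zero : (e0 : E (m + 1)) 0 = 1 := rfl

theorem norm_e0 : ‖(e0 : E (m + 1))‖ = 1 := by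
  have h := norm_cn_sq (1 : ℝ) (0 : E m)
  have h2 : ‖(e0 : E (m + 1))‖ ^ 2 = 1 := by
    rw [e0, h]; simp
  nlinarith [norm_nonneg (e0 : E (m + 1))]

theorem nsq (z : E (m + 1)) (a b : ℝ) :
    ‖a • z + b • (e0 : E (m + 1))‖ ^ 2 = a ^ 2 * ‖z‖ ^ 2 + 2 * a * b * z 0 + b ^ 2 := by
  rw [norm_add_sq_real, norm_smul, norm_smul, inner_smul_left, inner_smul_right, inner_e0, norm_e0]
  simp only [Real.norm_eq_abs, mul_pow, sq_abs, conj_trivial]
  ring

/-- the denominator -/
def den (a : ℝ) (z : E (m + 1)) : ℝ := 1 + 2 * a * z 0 + a ^ 2 * ‖z‖ ^ 2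

/-- the parabolic map -/
def mo (a : ℝ) (z : E (m + 1)) : E (m + 1) := (den a z)⁻¹ • (z + (a * ‖z‖ ^ 2) • e0)

theorem den_eq (a : ℝ) (z : E (m + 1)) : ‖a • z + (e0 : E (m + 1))‖ ^ 2 = den a z := by
  have := nsq z a 1
  rw [one_smul] at this
  rw [this, den]; ring

theorem den_nonneg (a : ℝ) (z : E (m + 1)) : 0 ≤ den a z := by
  rw [← den_eq]; positivity

theorem den_zero (a : ℝ) : den a (0 : E (m + 1)) = 1 := by simp [den]

theorem mo_zero (a : ℝ) : mo a (0 : E (m + 1)) = 0 := by simp [mo]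

theorem mo_head (a : ℝ) (z : E (m + 1)) : (mo a z) 0 = (den a z)⁻¹ * (z 0 + a * ‖z‖ ^ 2) := by
  simp [mo, e0_zero]
  ring

theorem norm_mo_sq (a : ℝ) (z : E (m + 1)) (h : den a z ≠ 0) :
    ‖mo a z‖ ^ 2 = ‖z‖ ^ 2 / den a z := by
  rw [mo, norm_smul, mul_pow]
  have := nsq z 1 (a * ‖z‖ ^ 2)
  rw [one_smul] at this
  rw [this, Real.norm_eq_abs, sq_abs]
  have h2 : (1 : ℝ) ^ 2 * ‖z‖ ^ 2 + 2 * 1 * (a * ‖z‖ ^ 2) * z 0 + (a * ‖z‖ ^ 2) ^ 2 =
      ‖z‖ ^ 2 * den a z := by rw [den]; ring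
  rw [h2]
  field_simp

theorem den_mo (a : ℝ) (z : E (m + 1)) (h : den a z ≠ 0) :
    den (-a) (mo a z) = (den a z)⁻¹ := by
  rw [den, norm_mo_sq a z h, mo_head]
  have h2 : den a z = 1 + 2 * a * z 0 + a ^ 2 * ‖z‖ ^ 2 := rfl
  field_simp
  rw [h2]; ring

theorem mo_mo (a : ℝ) (z : E (m + 1)) (h : den a z ≠ 0) : mo (-a) (mo a z) = z := by
  have h1 := den_mo a z h
  have h2 := norm_mo_sq a z h
  conv_lhs => rw [mo]
  rw [h1, h2, inv_inv, mo]
  rw [smul_add, smul_smul, smul_smul, mul_inv_cancel₀ h, one_smul]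
  have : den a z * (-a * (‖z‖ ^ 2 / den a z)) = -(a * ‖z‖ ^ 2) := by
    field_simp
  rw [this, neg_smul]
  abel

theorem contDiff_den (a : ℝ) : ContDiff ℝ ∞ (fun z : E (m + 1) => den a z) := by
  have h0 : ContDiff ℝ ∞ (fun z : E (m + 1) => z 0) := by fun_prop
  have h1 : ContDiff ℝ ∞ (fun z : E (m + 1) => ‖z‖ ^ 2) := contDiff_norm_sq ℝ
  unfold den
  fun_prop

theorem contDiffAt_mo (a : ℝ) {z : E (m + 1)} (h : den a z ≠ 0) :
    ContDiffAt ℝ ∞ (fun z : E (m + 1) => mo a z) z := by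
  have h1 : ContDiff ℝ ∞ (fun z : E (m + 1) => ‖z‖ ^ 2) := contDiff_norm_sq ℝ
  have h2 : ContDiff ℝ ∞ (fun z : E (m + 1) => z + (a * ‖z‖ ^ 2) • (e0 : E (m + 1))) := by
    fun_prop
  unfold mo
  exact ((contDiff_den a).contDiffAt.inv h).smul h2.contDiffAt

/-- the map as a diffeomorphism between open sets -/
def moPD (a : ℝ) : PartialDiffeomorph (𝓡 (m + 1)) (𝓡 (m + 1)) (E (m + 1)) (E (m + 1)) ∞ where
  toFun := mo a
  invFun := mo (-a)
  source := {z | den a z ≠ 0}
  target := {z | den (-a) z ≠ 0}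
  map_source' := fun z hz => by
    change den (-a) (mo a z) ≠ 0
    rw [den_mo a z hz]
    exact inv_ne_zero hz
  map_target' := fun z hz => by
    change den a (mo (-a) z) ≠ 0
    have := den_mo (-a) z hz
    rw [neg_neg] at this
    rw [this]
    exact inv_ne_zero hz
  left_inv' := fun z hz => mo_mo a z hz
  right_inv' := fun z hz => by
    have := mo_mo (-a) z hz
    rw [neg_neg] at this
    exact this
  open_source := isOpen_ne_fun (contDiff_den a).continuous continuous_const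
  open_target := isOpen_ne_fun (contDiff_den (-a)).continuous continuous_const
  contMDiffOn_toFun := fun z hz =>
    (contMDiffAt_iff_contDiffAt.2 (contDiffAt_mo a hz)).contMDiffWithinAt
  contMDiffOn_invFun := fun z hz =>
    (contMDiffAt_iff_contDiffAt.2 (contDiffAt_mo (-a) hz)).contMDiffWithinAt

theorem LD_mo (a : ℝ) {z : E (m + 1)} (h : den a z ≠ 0) : LD (m + 1) (mo a) z :=
  ⟨moPD a, h, fun _ _ => rfl⟩

theorem hasFDerivAt_mo (a : ℝ) :
    HasFDerivAt (mo a) (ContinuousLinearMap.id ℝ (E (m + 1))) (0 : E (m + 1)) := by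
  have h1 : HasFDerivAt (fun z : E (m + 1) => ‖z‖ ^ 2) (0 : E (m + 1) →L[ℝ] ℝ) 0 := by
    have := (hasStrictFDerivAt_norm_sq (0 : E (m + 1))).hasFDerivAt
    simpa using this
  have h2 : HasFDerivAt (fun z : E (m + 1) => z + (a * ‖z‖ ^ 2) • (e0 : E (m + 1)))
      (ContinuousLinearMap.id ℝ (E (m + 1))) 0 := by
    have h3 := (hasFDerivAt_id (𝕜 := ℝ) (0 : E (m + 1))).fun_add
      ((h1.const_mul a).smul_const (e0 : E (m + 1)))
    refine h3.congr_fderiv ?_
    ext v
    simp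
  have h4 : HasFDerivAt (fun z : E (m + 1) => (den a z)⁻¹)
      (fderiv ℝ (fun z : E (m + 1) => (den a z)⁻¹) 0) 0 := by
    apply DifferentiableAt.hasFDerivAt
    have h5 : ContDiffAt ℝ ∞ (fun z : E (m + 1) => (den a z)⁻¹) 0 :=
      (contDiff_den a).contDiffAt.inv (by rw [den_zero]; exact one_ne_zero)
    exact h5.differentiableAt (by simp)
  have h6 := h4.fun_smul h2
  refine h6.congr_fderiv ?_
  ext v
  simp [den_zero]

/-- inversion in the unit sphere -/
def io (z : E (m + 1)) : E (m + 1) := (‖z‖ ^ 2)⁻¹ • z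

theorem norm_io_sq (z : E (m + 1)) : ‖io z‖ ^ 2 = (‖z‖ ^ 2)⁻¹ := by
  rw [io, norm_smul, mul_pow, Real.norm_eq_abs, sq_abs]
  by_cases h : ‖z‖ = 0
  · simp [h]
  · field_simp

theorem io_io (z : E (m + 1)) (h : z ≠ 0) : io (io z) = z := by
  have h1 : ‖z‖ ≠ 0 := norm_ne_zero_iff.2 h
  conv_lhs => rw [io]
  rw [norm_io_sq, inv_inv, io, smul_smul, mul_inv_cancel₀ (pow_ne_zero 2 h1), one_smul]

theorem io_ne_zero (z : E (m + 1)) (h : z ≠ 0) : io z ≠ 0 := by
  have h1 : ‖z‖ ≠ 0 := norm_ne_zero_iff.2 h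
  exact smul_ne_zero (inv_ne_zero (pow_ne_zero 2 h1)) h

theorem contDiffAt_io {z : E (m + 1)} (h : z ≠ 0) :
    ContDiffAt ℝ ∞ (fun z : E (m + 1) => io z) z := by
  have h1 : ContDiff ℝ ∞ (fun z : E (m + 1) => ‖z‖ ^ 2) := contDiff_norm_sq ℝ
  have h2 : ‖z‖ ≠ 0 := norm_ne_zero_iff.2 h
  unfold io
  exact (h1.contDiffAt.inv (pow_ne_zero 2 h2)).smul contDiffAt_id

/-- inversion as a diffeomorphism between open sets -/
def ioPD : PartialDiffeomorph (𝓡 (m + 1)) (𝓡 (m + 1)) (E (m + 1)) (E (m + 1)) ∞ where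
  toFun := io
  invFun := io
  source := {z | z ≠ 0}
  target := {z | z ≠ 0}
  map_source' := fun _ hz => io_ne_zero _ hz
  map_target' := fun _ hz => io_ne_zero _ hz
  left_inv' := fun _ hz => io_io _ hz
  right_inv' := fun _ hz => io_io _ hz
  open_source := isOpen_ne
  open_target := isOpen_ne
  contMDiffOn_toFun := fun _ hz =>
    (contMDiffAt_iff_contDiffAt.2 (contDiffAt_io hz)).contMDiffWithinAt
  contMDiffOn_invFun := fun _ hz =>
    (contMDiffAt_iff_contDiffAt.2 (contDiffAt_io hz)).contMDiffWithinAt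

theorem LD_io {z : E (m + 1)} (h : z ≠ 0) : LD (m + 1) io z :=
  ⟨ioPD, h, fun _ _ => rfl⟩

theorem io_smul (k : ℝ) (z : E (m + 1)) (hk : k ≠ 0) : io (k • z) = k⁻¹ • io z := by
  rw [io, io, norm_smul, mul_pow, Real.norm_eq_abs, sq_abs, smul_smul, smul_smul]
  congr 1
  by_cases h : ‖z‖ = 0
  · simp [h]
  · field_simp

theorem mo_eq_io (a : ℝ) (z : E (m + 1)) (h : z ≠ 0) : mo a z = io (io z + a • e0) := by
  have h1 : ‖z‖ ≠ 0 := norm_ne_zero_iff.2 h
  have h2 : io z + a • (e0 : E (m + 1)) = (‖z‖ ^ 2)⁻¹ • (z + (a * ‖z‖ ^ 2) • e0) := by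
    rw [io, smul_add, smul_smul]
    congr 2
    field_simp
  rw [h2, io_smul _ _ (inv_ne_zero (pow_ne_zero 2 h1)), inv_inv, io, smul_smul, mo]
  congr 1
  have := nsq z 1 (a * ‖z‖ ^ 2)
  rw [one_smul] at this
  rw [this]
  have h3 : (1 : ℝ) ^ 2 * ‖z‖ ^ 2 + 2 * 1 * (a * ‖z‖ ^ 2) * z 0 + (a * ‖z‖ ^ 2) ^ 2 =
      ‖z‖ ^ 2 * den a z := by rw [den]; ring
  rw [h3, mul_inv, ← mul_assoc, mul_inv_cancel₀ (pow_ne_zero 2 h1), one_mul]

/-- the numerator of the inverted sphere inversion -/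
def wn (s : E (m + 1)) (t : ℝ) (u : E (m + 1)) : E (m + 1) :=
  (‖u - s‖ ^ 2) • s + t ^ 2 • (u - s)

/-- the denominator of the inverted sphere inversion -/
def wd (s : E (m + 1)) (t : ℝ) (u : E (m + 1)) : ℝ :=
  ‖s‖ ^ 2 * ‖u - s‖ ^ 2 + 2 * t ^ 2 * inner ℝ s (u - s) + t ^ 4

theorem norm_wn (s : E (m + 1)) (t : ℝ) (u : E (m + 1)) :
    ‖wn s t u‖ ^ 2 = ‖u - s‖ ^ 2 * wd s t u := by
  rw [wn, norm_add_sq_real, norm_smul, norm_smul, inner_smul_left, inner_smul_right, wd]
  simp only [Real.norm_eq_abs, mul_pow, sq_abs, conj_trivial, abs_pow]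
  ring

theorem io_inv (s : E (m + 1)) (t : ℝ) (u : E (m + 1)) (h : u ≠ s) :
    io (s + (t / ‖u - s‖) ^ 2 • (u - s)) = (wd s t u)⁻¹ • wn s t u := by
  have h1 : ‖u - s‖ ≠ 0 := norm_ne_zero_iff.2 (sub_ne_zero.2 h)
  have h2 : s + (t / ‖u - s‖) ^ 2 • (u - s) = (‖u - s‖ ^ 2)⁻¹ • wn s t u := by
    rw [wn, smul_add, smul_smul, smul_smul, inv_mul_cancel₀ (pow_ne_zero 2 h1), one_smul]
    congr 2
    field_simp
  rw [h2, io_smul _ _ (inv_ne_zero (pow_ne_zero 2 h1)), inv_inv, io, smul_smul, norm_wn, mul_inv,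
    ← mul_assoc, mul_inv_cancel₀ (pow_ne_zero 2 h1), one_mul]

theorem contDiff_wd (s : E (m + 1)) (t : ℝ) : ContDiff ℝ ∞ (fun u => wd s t u) := by
  have h1 : ContDiff ℝ ∞ (fun u : E (m + 1) => ‖u - s‖ ^ 2) :=
    (contDiff_norm_sq ℝ).comp (contDiff_id.sub contDiff_const)
  have h2 : ContDiff ℝ ∞ (fun u : E (m + 1) => inner ℝ s (u - s)) :=
    contDiff_const.inner ℝ (contDiff_id.sub contDiff_const)
  unfold wd
  fun_prop

theorem contDiff_wn (s : E (m + 1)) (t : ℝ) : ContDiff ℝ ∞ (fun u => wn s t u) := by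
  have h1 : ContDiff ℝ ∞ (fun u : E (m + 1) => ‖u - s‖ ^ 2) :=
    (contDiff_norm_sq ℝ).comp (contDiff_id.sub contDiff_const)
  unfold wn
  fun_prop

theorem wd_self (s : E (m + 1)) (t : ℝ) : wd s t s = t ^ 4 := by simp [wd]

theorem wn_self (s : E (m + 1)) (t : ℝ) : wn s t s = 0 := by simp [wn]

theorem LD_w (s : E (m + 1)) (t : ℝ) (ht : 0 < t) :
    LD (m + 1) (fun u => (wd s t u)⁻¹ • wn s t u) s := by
  have hw : wd s t s ≠ 0 := by rw [wd_self]; positivity
  have h1 : HasFDerivAt (fun z : E (m + 1) => ‖z - s‖ ^ 2) (0 : E (m + 1) →L[ℝ] ℝ) s := by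
    have h0 := ((hasFDerivAt_id (𝕜 := ℝ) s).sub_const s).norm_sq
    refine h0.congr_fderiv ?_
    ext v
    simp
  have h2 : HasFDerivAt (fun u => wn s t u) (t ^ 2 • ContinuousLinearMap.id ℝ (E (m + 1))) s := by
    have h3 := (h1.smul_const s).fun_add
      (((hasFDerivAt_id (𝕜 := ℝ) s).sub_const s).fun_const_smul (t ^ 2))
    refine h3.congr_fderiv ?_
    ext v
    simp
  have h4 : HasFDerivAt (fun u => (wd s t u)⁻¹) (fderiv ℝ (fun u => (wd s t u)⁻¹) s) s := by
    apply DifferentiableAt.hasFDerivAt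
    exact ((contDiff_wd s t).contDiffAt.inv hw).differentiableAt (by simp)
  have h6 := h4.fun_smul h2
  have hc : ((t ^ 4)⁻¹ * t ^ 2 : ℝ) ≠ 0 := by positivity
  refine LD_of_contDiffAt ?_ (ContinuousLinearEquiv.smulLeft (Units.mk0 _ hc)) ?_
  · have h7 : ∀ᶠ y in 𝓝 s, wd s t y ≠ 0 :=
      (contDiff_wd s t).continuous.continuousAt.eventually_ne hw
    filter_upwards [h7] with y hy
    exact ((contDiff_wd s t).contDiffAt.inv hy).smul (contDiff_wn s t).contDiffAt
  · refine h6.congr_fderiv ?_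
    ext v
    simp only [wd_self, wn_self, add_apply, smul_apply,
      ContinuousLinearMap.smulRight_apply, smul_zero, add_zero, ContinuousLinearMap.id_apply,
      smul_smul]
    rfl

theorem norm_mo_le (a : ℝ) (z : E (m + 1)) {b d : ℝ} (hb : 0 < b) (hd : 0 ≤ d)
    (h : b ^ 2 ≤ den a z) (h2 : ‖z‖ ≤ d * b) : ‖mo a z‖ ≤ d := by
  have h0 : 0 < den a z := lt_of_lt_of_le (by positivity) h
  have h3 := norm_mo_sq a z h0.ne'
  have h4 : ‖z‖ ^ 2 ≤ d ^ 2 * b ^ 2 := by
    have := pow_le_pow_left₀ (norm_nonneg z) h2 2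
    rwa [mul_pow] at this
  have h5 : ‖mo a z‖ ^ 2 ≤ d ^ 2 := by
    rw [h3, div_le_iff₀ h0]
    calc ‖z‖ ^ 2 ≤ d ^ 2 * b ^ 2 := h4
      _ ≤ d ^ 2 * den a z := by gcongr
  exact le_of_sq_le_sq h5 hd

theorem den_ge (a : ℝ) (ha : 0 ≤ a) (z : E (m + 1)) : (1 - a * ‖z‖) ^ 2 ≤ den a z := by
  have h1 := (abs_le.1 (abs_head_le z)).1
  rw [den]
  nlinarith [mul_nonneg ha (by linarith : (0:ℝ) ≤ z 0 + ‖z‖)]

theorem den_neg_ge (a : ℝ) (ha : 0 ≤ a) (z : E (m + 1)) : (1 - a * ‖z‖) ^ 2 ≤ den (-a) z := by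
  have h1 := (abs_le.1 (abs_head_le z)).2
  rw [den]
  nlinarith [mul_nonneg ha (by linarith : (0:ℝ) ≤ ‖z‖ - z 0)]

theorem den_ne_zero_iff (a : ℝ) (ha : 0 < a) (z : E (m + 1)) :
    den a z ≠ 0 ↔ z ≠ (-a⁻¹) • e0 := by
  rw [← den_eq]
  constructor
  · rintro h rfl
    apply h
    rw [smul_smul, mul_neg, mul_inv_cancel₀ ha.ne', neg_smul, one_smul, neg_add_cancel, norm_zero]
    norm_num
  · intro h h2
    apply h
    have h3 : a • z + (e0 : E (m + 1)) = 0 := by
      rw [← norm_eq_zero]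
      exact pow_eq_zero_iff (two_ne_zero) |>.1 h2
    have h4 : a • z = -(e0 : E (m + 1)) := eq_neg_of_add_eq_zero_left h3
    have h5 : z = a⁻¹ • (a • z) := by rw [smul_smul, inv_mul_cancel₀ ha.ne', one_smul]
    rw [h5, h4, smul_neg, neg_smul]

/-- The modified parabolic Moebius map. -/
theorem moebius (hG : StGerm) : StMoebius := by
  intro m ρ r hρ hr
  -- the parameter `a`
  obtain ⟨a, ha1, ha2⟩ : ∃ a : ℝ, 2 / ρ < a ∧ 2 / r < a := by
    obtain ⟨a, ha⟩ := exists_gt (max (2 / ρ) (2 / r))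
    exact ⟨a, lt_of_le_of_lt (le_max_left _ _) ha, lt_of_le_of_lt (le_max_right _ _) ha⟩
  have ha : 0 < a := lt_trans (by positivity) ha1
  have haρ : 2 < a * ρ := by rwa [div_lt_iff₀ hρ] at ha1
  have har : 2 < a * r := by rwa [div_lt_iff₀ hr] at ha2
  -- the parameter `ε`
  obtain ⟨ε, hε, hε1, hε2, hε3⟩ : ∃ ε : ℝ, 0 < ε ∧ 2 * a * ε < 1 ∧ 2 * ε < ρ ∧ 2 * ε < r := by
    refine ⟨min (1 / (4 * a)) (min (ρ / 4) (r / 4)), by positivity, ?_, ?_, ?_⟩
    · have h1 : min (1 / (4 * a)) (min (ρ / 4) (r / 4)) ≤ 1 / (4 * a) := min_le_left _ _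
      have h2 : 2 * a * (1 / (4 * a)) = 1 / 2 := by field_simp; norm_num
      nlinarith
    · have h1 : min (1 / (4 * a)) (min (ρ / 4) (r / 4)) ≤ ρ / 4 :=
        (min_le_right _ _).trans (min_le_left _ _)
      linarith
    · have h1 : min (1 / (4 * a)) (min (ρ / 4) (r / 4)) ≤ r / 4 :=
        (min_le_right _ _).trans (min_le_right _ _)
      linarith
  have hp1 : ∀ᶠ y in 𝓝 (0 : E (m + 1)), ContDiffAt ℝ ∞ (mo (-a)) y := by
    have h1 : ∀ᶠ y in 𝓝 (0 : E (m + 1)), den (-a) y ≠ 0 :=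
      (contDiff_den (-a)).continuous.continuousAt.eventually_ne (by rw [den_zero]; norm_num)
    filter_upwards [h1] with y hy
    exact contDiffAt_mo (-a) hy
  obtain ⟨G, χ, hGb, hGL, hGn, hχ0, hχ1, hGf⟩ := hG (m + 1) (mo (-a)) hp1 (mo_zero _)
    (hasFDerivAt_mo (-a)) ε hε
  have hGid : ∀ y, ε ≤ ‖y‖ → G y = y := fun y hy => by
    rw [hGf, hχ0 y hy, zero_smul, add_zero]
  set c : E (m + 1) := (-a⁻¹) • e0 with hc
  have hcn : ‖c‖ = a⁻¹ := by
    rw [hc, norm_smul, norm_e0, mul_one, norm_neg, Real.norm_eq_abs, abs_of_pos (by positivity)]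
  have hai : 0 < a⁻¹ := by positivity
  have hden : ∀ z : E (m + 1), z ≠ c → den a z ≠ 0 := fun z hz => (den_ne_zero_iff a ha z).2 hz
  -- the key estimate for points moved by `G`
  have hkey : ∀ z : E (m + 1), z ≠ c → ‖mo a z‖ < ε → ‖z‖ ≤ 2 * ε := by
    intro z hz hy
    have h1 : z = mo (-a) (mo a z) := (mo_mo a z (hden z hz)).symm
    rw [h1]
    refine norm_mo_le (-a) _ (b := 1 / 2) (by norm_num) (by positivity) ?_ (by linarith)
    refine le_trans ?_ (den_neg_ge a ha.le _)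
    have h2 : a * ‖mo a z‖ ≤ 1 / 2 := by nlinarith
    apply pow_le_pow_left₀ (by norm_num)
    linarith
  refine ⟨fun z => G (mo a z), c, ?_, ?_, ?_, ?_, ?_, ?_, ?_⟩
  · rw [hc]
    simp only [PiLp.smul_apply, smul_eq_mul, e0_zero]
    linarith
  · rw [hcn, inv_lt_iff_one_lt_mul₀ ha]
    linarith
  · intro z hz z' hz' h
    have h1 := hGb.1 h
    rw [← mo_mo a z (hden z hz), ← mo_mo a z' (hden z' hz'), h1]
  · intro z hz
    exact LD.comp_fun (hGL _) (LD_mo a (hden z hz))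
  · -- identity near zero
    have h1 : ∀ᶠ z in 𝓝 (0 : E (m + 1)), G (mo a z) = mo (-a) (mo a z) := by
      have h2 : ContinuousAt (mo a) (0 : E (m + 1)) :=
        (contDiffAt_mo a (by rw [den_zero]; norm_num)).continuousAt
      have h3 : Tendsto (mo a) (𝓝 (0 : E (m + 1))) (𝓝 0) := by
        have := h2.tendsto
        rwa [mo_zero] at this
      exact h3.eventually hGn
    obtain ⟨δ, hδ, hδ'⟩ := Metric.eventually_nhds_iff.1 h1
    refine ⟨min δ a⁻¹, by positivity, by rw [hcn]; exact min_le_right _ _, ?_⟩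
    intro z hz
    have h2 : z ≠ c := by
      rintro rfl
      rw [hcn] at hz
      exact absurd (min_le_right δ a⁻¹) (not_le.2 hz)
    have h3 := hδ' (y := z) (by rw [dist_zero_right]; exact lt_of_lt_of_le hz (min_le_left _ _))
    change G (mo a z) = z
    rw [h3, mo_mo a z (hden z h2)]
  · -- the image of the half space and of the outside of the ball
    intro z hz
    have hzc : z ≠ c ∧ 0 < z 0 + a * ‖z‖ ^ 2 ∧ ‖mo a z‖ < r ∧ (‖mo a z‖ < ε → 0 < z 0) := by
      rcases hz with hz | hz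
      · refine ⟨?_, by positivity, ?_, fun _ => hz⟩
        · rintro rfl
          rw [hc] at hz
          simp only [PiLp.smul_apply, smul_eq_mul, e0_zero] at hz
          linarith
        · have hz0 : z ≠ 0 := by
            rintro rfl
            simp at hz
          have hzn : 0 < ‖z‖ := norm_pos_iff.2 hz0
          have h1 : ‖mo a z‖ ≤ a⁻¹ := by
            refine norm_mo_le a z (b := a * ‖z‖) (by positivity) (by positivity) ?_ ?_
            · rw [den, mul_pow]
              have : 0 ≤ 2 * a * z 0 := by positivity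
              linarith
            · rw [← mul_assoc, inv_mul_cancel₀ ha.ne', one_mul]
          refine lt_of_le_of_lt h1 ?_
          rw [inv_lt_iff_one_lt_mul₀ ha]
          linarith
      · have haz : 2 < a * ‖z‖ := lt_of_lt_of_le haρ (by gcongr)
        have hzn : 0 < ‖z‖ := lt_of_lt_of_le hρ hz
        have hz0 := (abs_le.1 (abs_head_le z)).1
        have hzc : z ≠ c := by
          rintro rfl
          rw [hcn, mul_inv_cancel₀ ha.ne'] at haz
          norm_num at haz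
        have h1 : ‖mo a z‖ ≤ 2 * a⁻¹ := by
          refine norm_mo_le a z (b := a * ‖z‖ / 2) (by positivity) (by positivity) ?_ ?_
          · refine le_trans ?_ (den_ge a ha.le z)
            nlinarith
          · have : 2 * a⁻¹ * (a * ‖z‖ / 2) = ‖z‖ := by field_simp
            rw [this]
        refine ⟨hzc, by nlinarith, ?_, ?_⟩
        · refine lt_of_le_of_lt h1 ?_
          rw [← div_eq_mul_inv, div_lt_iff₀ ha]
          linarith
        · intro h
          have := hkey z hzc h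
          linarith
    obtain ⟨hzc, h1, h2, h3⟩ := hzc
    have hd := hden z hzc
    have hdp : 0 < den a z := lt_of_le_of_ne (den_nonneg a z) (Ne.symm hd)
    have hy0 : 0 < (mo a z) 0 := by
      rw [mo_head]
      positivity
    change 0 < (G (mo a z)) 0 ∧ ‖G (mo a z)‖ < r
    by_cases h4 : ‖mo a z‖ < ε
    · have h5 : G (mo a z) = (1 - χ (mo a z)) • mo a z + χ (mo a z) • z := by
        rw [hGf, mo_mo a z hd, smul_sub, sub_smul, one_smul]
        abel
      have h6 := hχ1 (mo a z)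
      set t := χ (mo a z) with ht
      constructor
      · rw [h5]
        simp only [PiLp.add_apply, PiLp.smul_apply, smul_eq_mul]
        rcases eq_or_lt_of_le h6.1 with h7 | h7
        · rw [← h7]; simpa using hy0
        · have h8 : 0 ≤ (1 - t) * (mo a z) 0 := mul_nonneg (by linarith) hy0.le
          have h9 : 0 < t * z 0 := mul_pos h7 (h3 h4)
          linarith
      · rw [h5]
        have h7 := hkey z hzc h4
        calc ‖(1 - t) • mo a z + t • z‖ ≤ ‖(1 - t) • mo a z‖ + ‖t • z‖ := norm_add_le _ _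
          _ = (1 - t) * ‖mo a z‖ + t * ‖z‖ := by
            rw [norm_smul, norm_smul, Real.norm_eq_abs, Real.norm_eq_abs, abs_of_nonneg h6.1,
              abs_of_nonneg (by linarith : 0 ≤ 1 - t)]
          _ ≤ (1 - t) * (2 * ε) + t * (2 * ε) := by
            have h8 : 0 ≤ 1 - t := by linarith
            have h9 := h6.1
            gcongr
            linarith
          _ < r := by linarith
    · rw [hGid _ (not_lt.1 h4)]
      exact ⟨hy0, h2⟩
  · -- behaviour at infinity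
    intro s t ht
    set w : E (m + 1) → E (m + 1) := fun u => (wd s t u)⁻¹ • wn s t u with hw
    have hws : w s = 0 := by rw [hw]; simp [wn_self]
    have hae : (0 : E (m + 1)) + a • e0 ≠ 0 := by
      rw [zero_add]
      refine smul_ne_zero ha.ne' ?_
      rw [← norm_ne_zero_iff, norm_e0]
      norm_num
    have hν0 : io (w s + a • e0) = a⁻¹ • e0 := by
      rw [hws, zero_add, io, norm_smul, norm_e0, mul_one, Real.norm_eq_abs, sq_abs, smul_smul]
      congr 1
      field_simp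
    have hLw : LD (m + 1) (fun u => io (w u + a • e0)) s := by
      have h1 : LD (m + 1) (fun u => w u + a • e0) s :=
        LD.comp_fun (g := fun y : E (m + 1) => y + a • e0) (f := w)
          (LD_add_const (a • e0) (w s)) (LD_w s t ht)
      have h2 : LD (m + 1) io ((fun u => w u + a • e0) s) := by
        apply LD_io
        change w s + a • e0 ≠ 0
        rw [hws]; exact hae
      exact LD.comp_fun h2 h1
    have hεa : ε < a⁻¹ := by
      rw [lt_inv_comm₀ hε ha, ← one_div, lt_div_iff₀ hε]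
      nlinarith
    have hne : ‖a⁻¹ • (e0 : E (m + 1))‖ = a⁻¹ := by
      rw [norm_smul, norm_e0, mul_one, Real.norm_eq_abs, abs_of_pos hai]
    refine ⟨fun u => io (w u + a • e0), hLw, ?_, ?_, ?_, ?_⟩
    · have h1 : ∀ᶠ u in 𝓝 s, ε < ‖io (w u + a • e0)‖ := by
        have h2 : ContinuousAt (fun u => ‖io (w u + a • e0)‖) s := hLw.continuousAt.norm
        apply h2.eventually (lt_mem_nhds ?_)
        change ε < ‖io (w s + a • e0)‖
        rw [hν0, hne]
        exact hεa
      have h3 : ∀ᶠ u in 𝓝 s, wd s t u ≠ 0 :=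
        (contDiff_wd s t).continuous.continuousAt.eventually_ne (by rw [wd_self]; positivity)
      filter_upwards [nhdsWithin_le_nhds h1, nhdsWithin_le_nhds h3, self_mem_nhdsWithin]
        with u hu1 hu3 hu2
      have hus : u ≠ s := hu2
      have hq : ‖u - s‖ ≠ 0 := norm_ne_zero_iff.2 (sub_ne_zero.2 hus)
      have h4 : s + (t / ‖u - s‖) ^ 2 • (u - s) ≠ 0 := by
        intro h5
        have h6 := io_inv s t u hus
        rw [h5] at h6
        have h7 : io (0 : E (m + 1)) = 0 := by simp [io]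
        rw [h7] at h6
        have h8 : wn s t u = 0 := by
          rcases smul_eq_zero.1 h6.symm with h9 | h9
          · exact absurd h9 (inv_ne_zero hu3)
          · exact h9
        have h9 := norm_wn s t u
        rw [h8, norm_zero] at h9
        have h10 : ‖u - s‖ ^ 2 * wd s t u ≠ 0 := mul_ne_zero (pow_ne_zero 2 hq) hu3
        apply h10
        rw [← h9]
        norm_num
      change io (w u + a • e0) = G (mo a (s + (t / ‖u - s‖) ^ 2 • (u - s)))
      rw [mo_eq_io a _ h4, io_inv s t u hus]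
      exact (hGid _ hu1.le).symm
    · change 0 < (io (w s + a • e0)) 0
      rw [hν0]
      simp only [PiLp.smul_apply, smul_eq_mul, e0_zero]
      linarith
    · change ‖io (w s + a • e0)‖ < r
      rw [hν0, hne, inv_lt_iff_one_lt_mul₀ ha]
      linarith
    · intro z hz h
      change G (mo a z) = io (w s + a • e0) at h
      rw [hν0] at h
      have h1 : G (a⁻¹ • e0) = a⁻¹ • (e0 : E (m + 1)) := hGid _ (by rw [hne]; exact hεa.le)
      have h2 : mo a z = a⁻¹ • e0 := hGb.1 (h.trans h1.symm)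
      have h3 := den_mo a z (hden z hz)
      rw [h2] at h3
      have h4 : den (-a) (a⁻¹ • (e0 : E (m + 1))) = 0 := by
        rw [← den_eq, smul_smul, neg_mul, mul_inv_cancel₀ ha.ne', neg_smul, one_smul,
          neg_add_cancel, norm_zero]
        norm_num
      rw [h4] at h3
      exact inv_ne_zero (hden z hz) h3.symm

end Pool.Agent.Y900.SH
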